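import Pool.Agent.H24.SCG3.Stmts6

/-!
SCG3 row EMIX: an elation and a polarity in the centraliser of a polarity.
-/

namespace Pool.Agent.H4.SCG3

open Matrix Pool.SCG

theorem el_of {F : Type} [Field F] (hEINV : EINVStmt) (h2 : (2 : F) = 0) {x : Cor F} (hx : Iv x)
    (hs : x.s = false) : ∃ u φ : Fin 3 → F, El x u φ := by
  rcases hEINV F h2 x hx with h | ⟨S, hS⟩
  · exact h
  · exfalso
    have := hS.is.1
    rw [hs] at this
    exact Bool.false_ne_true this

theorem pl_of {F : Type} [Field F] (hEINV : EINVStmt) (h2 : (2 : F) = 0) {x : Cor F} (hx : Iv x)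
    (hs : x.s = true) : ∃ S : Matrix (Fin 3) (Fin 3) F, Pl x S := by
  rcases hEINV F h2 x hx with ⟨u, φ, h⟩ | h
  · exfalso
    have := h.is.1
    rw [hs] at this
    exact Bool.false_ne_true this.symm
  · exact h

theorem pow_odd_self {G : Type*} [Group G] {a : G} (ha : a * a = 1) {m : ℕ} (hm : Odd m) :
    a ^ m = a := by
  obtain ⟨k, rfl⟩ := hm
  rw [pow_succ, pow_mul, pow_two, ha, one_pow, one_mul]

theorem core (hEINV : EINVStmt) (hEC1 : EC1Stmt) (hEC2 : EC2Stmt) (hEODD : EODDStmt)
    (F : Type) [Field F] [Finite F] (hF : EvN F) (a x y : Cor F)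
    (ha : Iv a) (hx : Iv x) (hy : Iv y) (has : a.s = true) (hxs : x.s = false)
    (hys : y.s = true) (hax : a * x = x * a) (hay : a * y = y * a) (hxy : x * y ≠ y * x) :
    a ∈ Subgroup.closure ({x, y} : Set (Cor F)) := by
  have h2 := hF.1
  obtain ⟨u, φ, hxe⟩ := el_of hEINV h2 hx hxs
  obtain ⟨S, hS⟩ := pl_of hEINV h2 ha has
  have hh : Iv (a * y) := by
    constructor
    · intro h
      apply hxy
      have : y = a := by
        calc y = (a * a) * y := by rw [ha.2, one_mul]
          _ = a * (a * y) := mul_assoc _ _ _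
          _ = a := by rw [h, mul_one]
      rw [this, hax]
    · calc (a * y) * (a * y) = (a * y) * (y * a) := by rw [hay]
        _ = a * (y * y) * a := by simp only [mul_assoc]
        _ = 1 := by rw [hy.2, mul_one, ha.2]
  have hhs : (a * y).s = false := by
    rw [Cor.mul_s, has, hys]; rfl
  obtain ⟨v, ψ, hhe⟩ := el_of hEINV h2 hh hhs
  obtain ⟨c, hc, hSu⟩ := (hEC2 F h2 x a u φ S hxe hS).1 hax.symm
  have hah : a * (a * y) = (a * y) * a := by
    rw [mul_assoc, ← hay]
  obtain ⟨c', hc', hSv⟩ := (hEC2 F h2 (a * y) a v ψ S hhe hS).1 hah.symm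
  have hsym : (S *ᵥ u) ⬝ᵥ v = (S *ᵥ v) ⬝ᵥ u := by
    rw [dotProduct_comm (S *ᵥ u) v, dotProduct_mulVec, ← mulVec_transpose, hS.sym]
  have hrel : c * (φ ⬝ᵥ v) = c' * (ψ ⬝ᵥ u) := by
    rw [hSu, hSv, smul_dotProduct, smul_dotProduct, smul_eq_mul, smul_eq_mul] at hsym
    exact hsym
  have hxh : x * (a * y) ≠ (a * y) * x := by
    intro h
    apply hxy
    have h1 : a * (x * y) = a * (y * x) := by
      calc a * (x * y) = (a * x) * y := (mul_assoc _ _ _).symm
        _ = x * (a * y) := by rw [hax, mul_assoc]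
        _ = (a * y) * x := h
        _ = a * (y * x) := mul_assoc _ _ _
    exact mul_left_cancel h1
  have hn : ¬ (φ ⬝ᵥ v = 0 ∧ ψ ⬝ᵥ u = 0) := fun h =>
    hxh ((hEC1 F x (a * y) u φ v ψ hxe hhe).2 h)
  have h1 : φ ⬝ᵥ v ≠ 0 := by
    intro h
    apply hn
    refine ⟨h, ?_⟩
    rw [h, mul_zero] at hrel
    exact (mul_eq_zero.1 hrel.symm).resolve_left hc'
  have h1' : ψ ⬝ᵥ u ≠ 0 := by
    intro h
    apply h1
    rw [h, mul_zero] at hrel
    exact (mul_eq_zero.1 hrel).resolve_left hc
  have hodd := hEODD F h2 x (a * y) u φ v ψ hxe hhe h1 h1'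
  have hcom : Commute a (x * (a * y)) := by
    show a * (x * (a * y)) = x * (a * y) * a
    calc a * (x * (a * y)) = (a * x) * (a * y) := (mul_assoc _ _ _).symm
      _ = x * (a * (a * y)) := by rw [hax, mul_assoc]
      _ = x * ((a * y) * a) := by rw [hah]
      _ = x * (a * y) * a := (mul_assoc _ _ _).symm
  have hxyeq : x * y = a * (x * (a * y)) := by
    calc x * y = x * ((a * a) * y) := by rw [ha.2, one_mul]
      _ = x * a * (a * y) := by simp only [mul_assoc]
      _ = a * (x * (a * y)) := by rw [← hax, mul_assoc]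
  have hpow : (x * y) ^ orderOf (x * (a * y)) = a := by
    rw [hxyeq, hcom.mul_pow, pow_orderOf_eq_one, mul_one, pow_odd_self ha.2 hodd]
  have hmem : x * y ∈ Subgroup.closure ({x, y} : Set (Cor F)) :=
    Subgroup.mul_mem _ (Subgroup.subset_closure (by simp)) (Subgroup.subset_closure (by simp))
  have hmem2 := Subgroup.pow_mem _ hmem (orderOf (x * (a * y)))
  rwa [hpow] at hmem2

theorem emix_thm (hEINV : EINVStmt) (hEC1 : EC1Stmt) (hEC2 : EC2Stmt) (hEODD : EODDStmt) :
    EMIXStmt := by
  intro F _ _ hF a x y ha hx hy has hne hax hay hxy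
  cases hxs : x.s with
  | false =>
    have hys : y.s = true := by
      cases hys : y.s with
      | false => exact absurd (hxs.trans hys.symm) hne
      | true => rfl
    exact core hEINV hEC1 hEC2 hEODD F hF a x y ha hx hy has hxs hys hax hay hxy
  | true =>
    have hys : y.s = false := by
      cases hys : y.s with
      | true => exact absurd (hxs.trans hys.symm) hne
      | false => rfl
    have := core hEINV hEC1 hEC2 hEODD F hF a y x ha hy hx has hys hxs hay hax
      (fun h => hxy h.symm)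
    rwa [Set.pair_comm] at this

end Pool.Agent.H4.SCG3
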